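import Pool.Agent.H307R2.OP.DefsC

set_option autoImplicit false

/-!
# Odd values of the number of `t`-multipartitions: configurations with a shifted number of primes
(adapted from `Pool.Agent.H307R2.OP.DefsB`)
-/

namespace Pool.Agent.H413R3.OddT

open Finset Pool.Agent.H307R2.OP

/-- the number of primes of the blocks: with `t` further primes and the large prime the total number
is `2 ^ (rr - 1) + p - n` -/
def kkT (M y p n t j : ℕ) : ℕ :=
  if j + 1 < M then y ^ (2 * j + 1)
  else 2 ^ (rr M y - 1) + p - n - 1 - t - ∑ i ∈ range (M - 1), y ^ (2 * i + 1)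

/-- the configuration -/
def cfgT (M y p n I : ℕ) (R : Finset ℕ) (c : ℕ) : Cfg M where
  I := I
  r := rr M y
  κ := fun j => kap M y j
  k := fun j => kkT M y p n R.card j
  R := R
  c := c

/-- the properties of the fixed primes `R` -/
structure RCT (M y I K : ℕ) (R : Finset ℕ) : Prop where
  card : R.card ≤ K
  pr : ∀ q ∈ R, q.Prime ∧ 5 ≤ q ∧ (q % 8 = 3 ∨ q % 8 = 5)
  le : ∏ q ∈ R, q ≤ 2 ^ (I / 16)
  kills : ∀ δ : ℕ, Adm δ → δ ≤ 2 ^ (8 * y ^ (2 * M - 1)) → StrongAt (kap M y 0) δ →
    ∃ q ∈ R, J q δ = -1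

end Pool.Agent.H413R3.OddT
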