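import Pool.Agent.H307R2.OP.PAR
import Pool.Agent.H413R3.OddT.Defs

set_option autoImplicit false

/-! Numerical facts on the shifted configuration (adapted from `Pool.Agent.H307R2.OP.PAR`) -/

namespace Pool.Agent.H413R3.OddT

open Finset Pool.Agent.H307R2.OP

section

variable {M y : ℕ}

/-- the sum of the `kkT` -/
lemma parT_kk_sum (hM : 2 ≤ M) (p n K : ℕ) (hy : 64 ≤ y) (hyK : 64 * (p + n + K + 1) ≤ y)
    (hMy : 16 * M ≤ y ^ 2) (t : ℕ) (ht : t ≤ K) :
    ∑ j : Fin M, kkT M y p n t j + t + 1 + n = 2 ^ (rr M y - 1) + p ∧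
    y ^ (2 * M - 1) ≤ 4 * kkT M y p n t (M - 1) ∧ kkT M y p n t (M - 1) ≤ y ^ (2 * M - 1) := by
  have h1 := @par_T1 M y (by omega)
  have h2 := @par_T2' M y
  have h3 := @par_sum' M y (by omega) hMy
  have h4 : y ≤ y ^ (2 * M - 1) := by
    calc y = y ^ 1 := (pow_one y).symm
      _ ≤ y ^ (2 * M - 1) := Nat.pow_le_pow_right (by omega) (by omega)
  have h7 : y ≤ ∑ i ∈ range (M - 1), y ^ (2 * i + 1) := by
    calc y = y ^ (2 * 0 + 1) := by simp
      _ ≤ _ := Finset.single_le_sum (f := fun i => y ^ (2 * i + 1)) (fun i _ => Nat.zero_le _)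
        (Finset.mem_range.2 (by omega))
  have h5 : ∑ j : Fin M, kkT M y p n t j =
      ∑ j ∈ range (M - 1), y ^ (2 * j + 1) + kkT M y p n t (M - 1) := by
    rw [Fin.sum_univ_eq_sum_range (fun j => kkT M y p n t j) M]
    conv_lhs => rw [show M = (M - 1) + 1 by omega]
    rw [Finset.sum_range_succ]
    congr 1
    · apply Finset.sum_congr rfl
      intro j hj
      rw [Finset.mem_range] at hj
      rw [kkT, if_pos (by omega)]
    · rw [show M - 1 + 1 = M by omega]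
  have h6 : kkT M y p n t (M - 1) =
      2 ^ (rr M y - 1) + p - n - 1 - t - ∑ i ∈ range (M - 1), y ^ (2 * i + 1) := by
    rw [kkT, if_neg (by omega)]
  rw [h5, h6]
  omega

lemma parT_k (hM : 2 ≤ M) (p n K : ℕ) (hy : 64 ≤ y) (hyK : 64 * (p + n + K + 1) ≤ y)
    (hMy : 16 * M ≤ y ^ 2) (t : ℕ) (ht : t ≤ K) (j : ℕ)
    (hj : j < M) : y ^ (2 * j + 1) ≤ 4 * kkT M y p n t j ∧ kkT M y p n t j ≤ y ^ (2 * j + 1) := by
  rcases Nat.lt_or_ge (j + 1) M with h | h
  · rw [kkT, if_pos h]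
    exact ⟨by omega, le_rfl⟩
  · have : j = M - 1 := by omega
    subst this
    have h1 := parT_kk_sum hM p n K hy hyK hMy t ht
    rw [show 2 * (M - 1) + 1 = 2 * M - 1 by omega]
    exact h1.2

lemma par_kap (j : ℕ) (hj : j < M) (hy : 1 ≤ y) : y ^ 4 ≤ kap M y j ∧
    kap M y j ≤ y ^ (2 * M + 2) ∧ kap M y j * y ^ (2 * j + 1) = y ^ (2 * M + 3) := by
  refine ⟨Nat.pow_le_pow_right hy (by omega), Nat.pow_le_pow_right hy (by omega), ?_⟩
  rw [kap, ← pow_add]
  congr 1
  omega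

lemma parT_Q (hM : 2 ≤ M) (p n K : ℕ) (hy : 64 ≤ y) (hyK : 64 * (p + n + K + 1) ≤ y)
    (hMy : 32 * M ≤ y) {I : ℕ} (hI : y ^ (2 * M + 4) ≤ I)
    (R : Finset ℕ) (c : ℕ) (hR : R.card ≤ K) (A : Fin M → Finset ℕ)
    (hA : A ∈ (cfgT M y p n I R c).Fam) : (cfgT M y p n I R c).Q A ≤ 2 ^ (I / 16) := by
  have h16 : 16 * M ≤ y ^ 2 := by nlinarith
  have hA' : ∀ j, A j ⊆ (cfgT M y p n I R c).Blk j ∧ (A j).card = kkT M y p n R.card j := by
    intro j
    have := (Fintype.mem_piFinset.1 hA) j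
    rw [Finset.mem_powersetCard] at this
    exact this
  have h1 : ∀ j : Fin M, ∏ q ∈ A j, q ≤ 2 ^ (2 * y ^ (2 * M + 3)) := by
    intro j
    obtain ⟨k1, k2, k3⟩ := @par_kap M y j j.2 (by omega)
    have k4 := (parT_k hM p n K hy hyK h16 R.card hR j j.2).2
    have h2 : ∏ q ∈ A j, q ≤ (2 ^ (kap M y j + 1)) ^ (A j).card := by
      rw [← Finset.prod_const]
      apply Finset.prod_le_prod (fun _ _ => Nat.zero_le _)
      intro q hq
      have h3 := (hA' j).1 hq
      rw [Cfg.Blk, Finset.mem_sdiff, PB, Finset.mem_filter, Finset.mem_Ioc] at h3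
      exact h3.1.1.2
    refine h2.trans ?_
    rw [(hA' j).2, ← pow_mul]
    apply Nat.pow_le_pow_right (by norm_num)
    have h5 : 1 ≤ kap M y j := le_trans (Nat.one_le_pow _ _ (by omega)) k1
    calc (kap M y j + 1) * kkT M y p n R.card j ≤ (2 * kap M y j) * y ^ (2 * (j : ℕ) + 1) :=
          Nat.mul_le_mul (by omega) k4
      _ = 2 * (kap M y j * y ^ (2 * (j : ℕ) + 1)) := by ring
      _ = _ := by rw [k3]
  calc (cfgT M y p n I R c).Q A = ∏ j, ∏ q ∈ A j, q := rfl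
    _ ≤ ∏ j : Fin M, 2 ^ (2 * y ^ (2 * M + 3)) :=
        Finset.prod_le_prod (fun _ _ => Nat.zero_le _) (fun j _ => h1 j)
    _ = 2 ^ (2 * y ^ (2 * M + 3) * M) := by
        rw [Finset.prod_const, Finset.card_univ, Fintype.card_fin, ← pow_mul]
    _ ≤ 2 ^ (I / 16) := by
        apply Nat.pow_le_pow_right (by norm_num)
        rw [Nat.le_div_iff_mul_le (by norm_num)]
        calc 2 * y ^ (2 * M + 3) * M * 16 = (32 * M) * y ^ (2 * M + 3) := by ring
          _ ≤ y * y ^ (2 * M + 3) := Nat.mul_le_mul_right _ hMy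
          _ = y ^ (2 * M + 4) := by rw [← pow_succ']
          _ ≤ I := hI

/-- lower bound for the mass of a block without the killing primes -/
lemma parT_S {i0 : ℕ} (hm : ∀ i : ℕ, i0 ≤ i → 1 / (6 * (i : ℝ)) ≤ ∑ p ∈ PB i 5, (1 : ℝ) / p)
    (K i : ℕ) (hi : i0 ≤ i) (hi2 : 1 ≤ i) (he : 24 * K * i ≤ 2 ^ i) (R : Finset ℕ)
    (hR : R.card ≤ K) :
    1 / (8 * (i : ℝ)) ≤ ∑ p ∈ PB i 5 \ R, (1 : ℝ) / p := by
  have h1 := hm i hi
  have h2 : ∑ p ∈ PB i 5, (1 : ℝ) / p = ∑ p ∈ PB i 5 \ R, (1 : ℝ) / p +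
      ∑ p ∈ PB i 5 ∩ R, (1 : ℝ) / p := by
    rw [add_comm, Finset.sum_inter_add_sum_sdiff]
  have h3 : ∑ p ∈ PB i 5 ∩ R, (1 : ℝ) / p ≤ K / 2 ^ i := by
    calc ∑ p ∈ PB i 5 ∩ R, (1 : ℝ) / p ≤ ∑ p ∈ PB i 5 ∩ R, 1 / 2 ^ i := by
          apply Finset.sum_le_sum
          intro p hp
          rw [Finset.mem_inter, PB, Finset.mem_filter, Finset.mem_Ioc] at hp
          have : (2 ^ i : ℝ) ≤ p := by exact_mod_cast hp.1.1.1.le
          exact one_div_le_one_div_of_le (by positivity) this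
      _ = ((PB i 5 ∩ R).card : ℝ) * (1 / 2 ^ i) := by rw [Finset.sum_const, nsmul_eq_mul]
      _ ≤ K * (1 / 2 ^ i) := by
          apply mul_le_mul_of_nonneg_right _ (by positivity)
          have : (PB i 5 ∩ R).card ≤ K := (Finset.card_le_card Finset.inter_subset_right).trans hR
          exact_mod_cast this
      _ = K / 2 ^ i := by ring
  have h4 : (24 * (K : ℝ) * (i : ℝ)) ≤ 2 ^ i := by exact_mod_cast he
  have hi0 : (0 : ℝ) < i := by exact_mod_cast hi2
  have h5 : (K : ℝ) / 2 ^ i ≤ 1 / (24 * i) := by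
    rw [div_le_div_iff₀ (by positivity) (by positivity)]
    linarith
  have h6 : 1 / (6 * (i : ℝ)) - 1 / (24 * i) = 1 / (8 * (i : ℝ)) := by
    field_simp; norm_num
  linarith

lemma par_factor {s d : ℝ} {k : ℕ} (hs : 0 < s) (hd : 0 ≤ d) (h : k * d ≤ s) :
    (s + d) ^ k ≤ Real.exp 1 * s ^ k := by
  have h1 : s + d ≤ s * Real.exp (d / s) := by
    have := Real.add_one_le_exp (d / s)
    calc s + d = s * (d / s + 1) := by field_simp; ring
      _ ≤ s * Real.exp (d / s) := mul_le_mul_of_nonneg_left this hs.le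
  calc (s + d) ^ k ≤ (s * Real.exp (d / s)) ^ k := pow_le_pow_left₀ (by linarith) h1 k
    _ = s ^ k * Real.exp (k * (d / s)) := by rw [mul_pow, ← Real.exp_nat_mul]
    _ ≤ s ^ k * Real.exp 1 := by
        apply mul_le_mul_of_nonneg_left _ (by positivity)
        apply Real.exp_le_exp.2
        rw [← mul_div_assoc, div_le_one hs]
        exact h
    _ = _ := by ring

end

theorem parT (h : PCStmt) : ∀ M p n K : ℕ, 2 ≤ M → ∃ y0 : ℕ, ∀ y : ℕ, y0 ≤ y → ∀ I : ℕ,
  y ^ (2 * M + 4) ≤ I → I ≤ 2 * y ^ (2 * M + 4) → ∀ (R : Finset ℕ) (c : ℕ), R.card ≤ K →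
  (∀ q ∈ R, q.Prime ∧ 5 ≤ q ∧ (q % 8 = 3 ∨ q % 8 = 5)) → ∏ q ∈ R, q ≤ 2 ^ (I / 16) →
  (c = 3 ∨ c = 5) →
  (cfgT M y p n I R c).Ok ∧
  ∑ j, (cfgT M y p n I R c).k j + R.card + 1 + n = 2 ^ (rr M y - 1) + p ∧
  2 ^ (rr M y - 1) ≤ y ^ (2 * M - 1) ∧ y ^ (2 * M - 1) < 2 ^ (rr M y) ∧
  (∀ j : Fin M, (y : ℝ) ^ (2 * (j : ℕ) + 1) / 4 ≤ (cfgT M y p n I R c).k j ∧
    ((cfgT M y p n I R c).k j : ℝ) ≤ (y : ℝ) ^ (2 * (j : ℕ) + 1)) ∧
  (∀ j : Fin M, 1 / (8 * (kap M y j : ℝ)) ≤ (cfgT M y p n I R c).S j) ∧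
  (∀ j : Fin M, y ≤ kap M y j ∧ kap M y j ≤ I) ∧
  (∀ j : Fin M, 2 * ((cfgT M y p n I R c).k j : ℝ) ^ 2 ≤
    2 ^ (kap M y j) * (cfgT M y p n I R c).S j) ∧
  (∏ j, (((cfgT M y p n I R c).S j + 1 / (I : ℝ) ^ 2 + R.card / 2 ^ (kap M y j)) ^
      (cfgT M y p n I R c).k j / (((cfgT M y p n I R c).k j).factorial : ℝ)) ≤
    Real.exp M * (cfgT M y p n I R c).W) ∧
  1 / (2 : ℝ) ^ (I / 100) ≤ (cfgT M y p n I R c).W := by
  intro M p n K hM
  obtain ⟨i0, hm⟩ := h.mass
  obtain ⟨y1, hy1⟩ := par_ev M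
  refine ⟨max y1 (max i0 (max 1000 (32 * M))) + 64 * (p + n + K + 1), ?_⟩
  intro y hy' I hI1 hI2 R c hR hRp hRle hc
  have hy : max y1 (max i0 (max 1000 (32 * M))) ≤ y := by omega
  have hyK : 64 * (p + n + K + 1) ≤ y := by omega
  have a1 : y1 ≤ y := (le_max_left _ _).trans hy
  have a2 : i0 ≤ y := ((le_max_left _ _).trans (le_max_right _ _)).trans hy
  have a3 : 1000 ≤ y :=
    ((le_max_left _ _).trans ((le_max_right _ _).trans (le_max_right _ _))).trans hy
  have a4 : 32 * M ≤ y :=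
    ((le_max_right _ _).trans ((le_max_right _ _).trans (le_max_right _ _))).trans hy
  have h16 : 16 * M ≤ y ^ 2 := by nlinarith
  have E := hy1 y a1
  have hy0 : 1 ≤ y := by omega
  have hyR : (1000 : ℝ) ≤ y := by exact_mod_cast a3
  have T1 := @par_T1 M y hy0
  have T2 := @par_T2 M y
  have Ksum := parT_kk_sum hM p n K (by omega) hyK h16 R.card hR
  have Kk := parT_k hM p n K (by omega : 64 ≤ y) hyK h16 R.card hR
  -- powers
  have p1 : ∀ a b : ℕ, a ≤ b → y ^ a ≤ y ^ b := fun a b hab => Nat.pow_le_pow_right hy0 hab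
  have p2 : ∀ a : ℕ, a ≤ 8 * M + 20 → 2 ^ 20 * y ^ a ≤ 2 ^ y := by
    intro a ha
    calc 2 ^ 20 * y ^ a ≤ 2 ^ 20 * (M + 1) ^ 2 * y ^ (8 * M + 20) := by
          apply Nat.mul_le_mul _ (p1 _ _ ha)
          exact Nat.le_mul_of_pos_right _ (by positivity)
      _ ≤ 2 ^ y := E
  have kap1 := fun j : Fin M => @par_kap M y j j.2 hy0
  have kapy : ∀ j : Fin M, y ≤ kap M y j := fun j => by
    have := p1 1 4 (by norm_num)
    rw [pow_one] at this
    exact this.trans (kap1 j).1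
  have k2y : ∀ j : Fin M, 2 ^ y ≤ 2 ^ (kap M y j) := fun j =>
    Nat.pow_le_pow_right (by norm_num) (kapy j)
  have kkap : ∀ j : Fin M, kap M y j * kkT M y p n R.card j ≤ y ^ (2 * M + 3) := fun j => by
    rw [← (kap1 j).2.2]
    exact Nat.mul_le_mul_left _ (Kk j j.2).2
  have kpos : ∀ j : Fin M, 1 ≤ kkT M y p n R.card j := fun j => by
    have h1 := (Kk j j.2).1
    have h2 := p1 1 (2 * j + 1) (by omega)
    rw [pow_one] at h2
    omega
  have kapI : ∀ j : Fin M, kap M y j ≤ I := fun j =>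
    ((kap1 j).2.1.trans (p1 _ _ (by omega))).trans hI1
  set g := cfgT M y p n I R c with hg
  have hS : ∀ j : Fin M, 1 / (8 * (kap M y j : ℝ)) ≤ g.S j := by
    intro j
    apply parT_S hm K (kap M y j) (a2.trans (kapy j)) (hy0.trans (kapy j)) _ R hR
    calc 24 * K * kap M y j ≤ y * y ^ (2 * M + 2) := Nat.mul_le_mul (by omega) (kap1 j).2.1
      _ = y ^ (2 * M + 3) := by rw [← pow_succ']
      _ ≤ 2 ^ 20 * y ^ (2 * M + 3) := Nat.le_mul_of_pos_left _ (by norm_num)
      _ ≤ 2 ^ y := p2 _ (by omega)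
      _ ≤ _ := k2y j
  have kap0 : ∀ j : Fin M, (0 : ℝ) < kap M y j := fun j => by
    exact_mod_cast (hy0.trans (kapy j))
  have S0 : ∀ j : Fin M, 0 < g.S j := fun j =>
    lt_of_lt_of_le (by have := kap0 j; positivity) (hS j)
  -- Ok
  have ok : g.Ok := by
    refine ⟨?_, ?_, ?_, ?_, hRp, ?_, ?_, hc⟩
    · intro i j hij
      have h1 : y ^ (2 * M + 2 - 2 * (i : ℕ)) = y ^ (2 * M + 2 - 2 * (j : ℕ)) := hij
      have h2 := Nat.pow_right_injective (by omega : 2 ≤ y) h1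
      have := i.2
      have := j.2
      apply Fin.ext
      omega
    · show 3 ≤ rr M y
      rw [rr]
      have h1 : 4 ≤ y ^ (2 * M - 1) := by
        have := p1 1 (2 * M - 1) (by omega)
        rw [pow_one] at this
        omega
      have : 2 ≤ Nat.log 2 (y ^ (2 * M - 1)) := by
        rw [Nat.le_log_iff_pow_le (by norm_num) (by positivity)]
        omega
      omega
    · show 100 * rr M y ≤ I
      rw [rr]
      have h1 : Nat.log 2 (y ^ (2 * M - 1)) ≤ y ^ (2 * M - 1) := Nat.log_le_self _ _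
      have h2 : 200 * y ^ (2 * M - 1) ≤ y ^ (2 * M + 4) := by
        calc 200 * y ^ (2 * M - 1) ≤ y ^ 5 * y ^ (2 * M - 1) := by
              apply Nat.mul_le_mul_right
              calc 200 ≤ y := by omega
                _ = y ^ 1 := (pow_one y).symm
                _ ≤ y ^ 5 := p1 _ _ (by norm_num)
          _ = y ^ (2 * M + 4) := by rw [← pow_add]; congr 1; omega
      have h3 : 1 ≤ y ^ (2 * M - 1) := Nat.one_le_pow _ _ (by omega)
      omega
    · show 800 ≤ I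
      have := p1 1 (2 * M + 4) (by omega)
      rw [pow_one] at this
      omega
    · intro j
      show 3 ≤ kap M y j
      have := kapy j
      omega
    · intro A hA
      have h1 := parT_Q hM p n K (by omega) hyK a4 hI1 R c hR A hA
      have h2 : g.Rp ≤ 2 ^ (I / 16) := hRle
      calc g.Rp * g.Q A ≤ 2 ^ (I / 16) * 2 ^ (I / 16) := Nat.mul_le_mul h2 h1
        _ = 2 ^ (I / 16 + I / 16) := by rw [← pow_add]
        _ ≤ 2 ^ (I / 8) := Nat.pow_le_pow_right (by norm_num) (by omega)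
  -- real versions
  have kkR : ∀ j : Fin M, (kap M y j : ℝ) * (kkT M y p n R.card j : ℝ) ≤ (y : ℝ) ^ (2 * M + 3) :=
    fun j => by exact_mod_cast kkap j
  have hIR : (y : ℝ) ^ (2 * M + 4) ≤ I := by exact_mod_cast hI1
  have p2R : ∀ a : ℕ, a ≤ 8 * M + 20 → (2 : ℝ) ^ 20 * (y : ℝ) ^ a ≤ 2 ^ y := fun a ha => by
    exact_mod_cast p2 a ha
  have k2yR : ∀ j : Fin M, (2 : ℝ) ^ y ≤ 2 ^ (kap M y j) := fun j => by exact_mod_cast k2y j
  refine ⟨ok, Ksum.1, T1, T2, ?_, hS, fun j => ⟨kapy j, kapI j⟩, ?_, ?_, ?_⟩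
  · intro j
    have h1 := Kk j j.2
    have h2 : (y : ℝ) ^ (2 * (j : ℕ) + 1) ≤ 4 * (kkT M y p n R.card j : ℝ) := by exact_mod_cast h1.1
    have h3 : (kkT M y p n R.card j : ℝ) ≤ (y : ℝ) ^ (2 * (j : ℕ) + 1) := by exact_mod_cast h1.2
    refine ⟨?_, h3⟩
    show (y : ℝ) ^ (2 * (j : ℕ) + 1) / 4 ≤ (kkT M y p n R.card j : ℝ)
    linarith
  · intro j
    show 2 * (kkT M y p n R.card j : ℝ) ^ 2 ≤ 2 ^ (kap M y j) * g.S j
    have h1 : 2 * (kkT M y p n R.card j : ℝ) ^ 2 * (8 * (kap M y j : ℝ)) ≤ 2 ^ (kap M y j) := by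
      have h2 : (kkT M y p n R.card j : ℝ) ≤ (y : ℝ) ^ (2 * M + 3) := by
        have h3 : kkT M y p n R.card j ≤ y ^ (2 * M + 3) :=
          (Nat.le_mul_of_pos_left _ (hy0.trans (kapy j))).trans (kkap j)
        exact_mod_cast h3
      have h0 : (0 : ℝ) ≤ kkT M y p n R.card j := Nat.cast_nonneg _
      calc 2 * (kkT M y p n R.card j : ℝ) ^ 2 * (8 * (kap M y j : ℝ))
          = 16 * (kkT M y p n R.card j : ℝ) * ((kap M y j : ℝ) * (kkT M y p n R.card j : ℝ)) := by ring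
        _ ≤ 16 * (y : ℝ) ^ (2 * M + 3) * (y : ℝ) ^ (2 * M + 3) := by
            apply mul_le_mul (by linarith) (kkR j)
            · have := (kap0 j).le; positivity
            · positivity
        _ = 16 * (y : ℝ) ^ (4 * M + 6) := by ring
        _ ≤ 2 ^ 20 * (y : ℝ) ^ (4 * M + 6) := by
            apply mul_le_mul_of_nonneg_right (by norm_num) (by positivity)
        _ ≤ 2 ^ y := p2R _ (by omega)
        _ ≤ _ := k2yR j
    have hk := kap0 j
    calc 2 * (kkT M y p n R.card j : ℝ) ^ 2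
        = (2 * (kkT M y p n R.card j : ℝ) ^ 2 * (8 * (kap M y j : ℝ))) * (1 / (8 * (kap M y j : ℝ))) := by
          field_simp
      _ ≤ 2 ^ (kap M y j) * g.S j := mul_le_mul h1 (hS j) (by positivity) (by positivity)
  · show ∏ j, ((g.S j + 1 / (I : ℝ) ^ 2 + R.card / 2 ^ (kap M y j)) ^
      g.k j / ((g.k j).factorial : ℝ)) ≤ Real.exp M * g.W
    have h1 : ∀ j : Fin M, (g.S j + 1 / (I : ℝ) ^ 2 + R.card / 2 ^ (kap M y j)) ^
      g.k j / ((g.k j).factorial : ℝ) ≤ Real.exp 1 * (g.S j ^ g.k j / ((g.k j).factorial : ℝ)) := by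
      intro j
      have hk := kap0 j
      have hkk0 : (0 : ℝ) ≤ kkT M y p n R.card j := Nat.cast_nonneg _
      have hI0 : (0 : ℝ) < I := by
        have : (0 : ℝ) < (y : ℝ) ^ (2 * M + 4) := by positivity
        linarith
      have hR2 : (R.card : ℝ) ≤ K := by exact_mod_cast hR
      have hKy : (64 : ℝ) * K ≤ y := by
        have : 64 * K ≤ y := by omega
        exact_mod_cast this
      have hK0 : (0 : ℝ) ≤ K := Nat.cast_nonneg _
      have e1 : (kkT M y p n R.card j : ℝ) * (1 / (I : ℝ) ^ 2) ≤ 1 / 2 * (1 / (8 * (kap M y j : ℝ))) := by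
        rw [mul_one_div, one_div_mul_one_div, div_le_div_iff₀ (by positivity) (by positivity)]
        have e2 : (y : ℝ) ^ (2 * M + 3) * 16 ≤ I ^ 2 := by
          calc (y : ℝ) ^ (2 * M + 3) * 16 ≤ (y : ℝ) ^ (2 * M + 3) * y := by
                apply mul_le_mul_of_nonneg_left (by linarith) (by positivity)
            _ = (y : ℝ) ^ (2 * M + 4) := by ring
            _ ≤ I := hIR
            _ ≤ I ^ 2 := by
                have : (1 : ℝ) ≤ I := le_trans (one_le_pow₀ (by linarith)) hIR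
                nlinarith
        have := kkR j
        nlinarith
      have e3 : (kkT M y p n R.card j : ℝ) * (R.card / 2 ^ (kap M y j)) ≤
          1 / 2 * (1 / (8 * (kap M y j : ℝ))) := by
        rw [one_div_mul_one_div, ← mul_div_assoc, div_le_div_iff₀ (by positivity) (by positivity)]
        have e4 : (y : ℝ) ^ (2 * M + 3) * (16 * K) ≤ 2 ^ (kap M y j) := by
          calc (y : ℝ) ^ (2 * M + 3) * (16 * K) ≤ (y : ℝ) ^ (2 * M + 3) * y := by
                apply mul_le_mul_of_nonneg_left _ (by positivity)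
                linarith
            _ = (y : ℝ) ^ (2 * M + 4) := by ring
            _ ≤ 2 ^ 20 * (y : ℝ) ^ (2 * M + 4) := by
                have : (0 : ℝ) ≤ (y : ℝ) ^ (2 * M + 4) := by positivity
                nlinarith
            _ ≤ 2 ^ y := p2R _ (by omega)
            _ ≤ _ := k2yR j
        have := kkR j
        calc (kkT M y p n R.card j : ℝ) * R.card * (2 * (8 * (kap M y j : ℝ)))
            ≤ (kkT M y p n R.card j : ℝ) * K * (2 * (8 * (kap M y j : ℝ))) := by gcongr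
          _ = ((kap M y j : ℝ) * (kkT M y p n R.card j : ℝ)) * (16 * K) := by ring
          _ ≤ (y : ℝ) ^ (2 * M + 3) * (16 * K) := by gcongr
          _ ≤ 2 ^ (kap M y j) := e4
          _ = 1 * 2 ^ (kap M y j) := by ring
      have e5 : ((g.k j : ℕ) : ℝ) * (1 / (I : ℝ) ^ 2 + R.card / 2 ^ (kap M y j)) ≤ g.S j := by
        show (kkT M y p n R.card j : ℝ) * (1 / (I : ℝ) ^ 2 + R.card / 2 ^ (kap M y j)) ≤ g.S j
        have := hS j
        rw [mul_add]
        linarith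
      have e6 := par_factor (S0 j) (by positivity) e5
      rw [add_assoc, ← mul_div_assoc]
      exact div_le_div_of_nonneg_right e6 (by positivity)
    calc _ ≤ ∏ j : Fin M, Real.exp 1 * (g.S j ^ g.k j / ((g.k j).factorial : ℝ)) := by
          apply Finset.prod_le_prod _ (fun j _ => h1 j)
          intro j _
          have := S0 j
          positivity
      _ = Real.exp M * g.W := by
          rw [Finset.prod_mul_distrib, Finset.prod_const, Finset.card_univ, Fintype.card_fin,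
            ← Real.exp_nat_mul, mul_one, Cfg.W]
  · have h1 : ∀ j : Fin M, ((2 : ℝ) ^ y)⁻¹ ^ (kkT M y p n R.card j) ≤
        g.S j ^ g.k j / ((g.k j).factorial : ℝ) := by
      intro j
      show ((2 : ℝ) ^ y)⁻¹ ^ (kkT M y p n R.card j) ≤
        g.S j ^ (kkT M y p n R.card j) / ((kkT M y p n R.card j).factorial : ℝ)
      have hk := kap0 j
      have hkk : (0 : ℝ) < kkT M y p n R.card j := by exact_mod_cast kpos j
      have e1 : ((2 : ℝ) ^ y)⁻¹ ≤ g.S j / kkT M y p n R.card j := by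
        rw [le_div_iff₀ hkk]
        refine le_trans ?_ (hS j)
        rw [inv_mul_le_iff₀ (by positivity), mul_one_div, le_div_iff₀ (by positivity)]
        calc (kkT M y p n R.card j : ℝ) * (8 * (kap M y j : ℝ))
            = 8 * ((kap M y j : ℝ) * (kkT M y p n R.card j : ℝ)) := by ring
          _ ≤ 8 * (y : ℝ) ^ (2 * M + 3) := by have := kkR j; linarith
          _ ≤ 2 ^ 20 * (y : ℝ) ^ (2 * M + 3) := by
              apply mul_le_mul_of_nonneg_right (by norm_num) (by positivity)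
          _ ≤ 2 ^ y := p2R _ (by omega)
      have e2 : ((kkT M y p n R.card j).factorial : ℝ) ≤ (kkT M y p n R.card j : ℝ) ^ (kkT M y p n R.card j) := by
        exact_mod_cast Nat.factorial_le_pow _
      calc ((2 : ℝ) ^ y)⁻¹ ^ (kkT M y p n R.card j) ≤ (g.S j / kkT M y p n R.card j) ^ (kkT M y p n R.card j) :=
            pow_le_pow_left₀ (by positivity) e1 _
        _ = g.S j ^ (kkT M y p n R.card j) / (kkT M y p n R.card j : ℝ) ^ (kkT M y p n R.card j) := div_pow _ _ _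
        _ ≤ _ := by
            apply div_le_div_of_nonneg_left _ (by positivity) e2
            have := (S0 j).le
            positivity
    have h2 : ∏ j : Fin M, ((2 : ℝ) ^ y)⁻¹ ^ (kkT M y p n R.card j) ≤ g.W := by
      rw [Cfg.W]
      exact Finset.prod_le_prod (fun j _ => by positivity) (fun j _ => h1 j)
    refine le_trans ?_ h2
    rw [Finset.prod_pow_eq_pow_sum, inv_pow, ← one_div, ← pow_mul]
    apply one_div_le_one_div_of_le (by positivity)
    apply pow_le_pow_right₀ (by norm_num)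
    have e1 : ∑ j : Fin M, kkT M y p n R.card j ≤ 2 * y ^ (2 * M - 1) := by
      have := Ksum.1
      have h9 := p1 1 (2 * M - 1) (by omega)
      rw [pow_one] at h9
      omega
    rw [Nat.le_div_iff_mul_le (by norm_num)]
    calc y * (∑ j : Fin M, kkT M y p n R.card j) * 100 ≤ y * (2 * y ^ (2 * M - 1)) * 100 := by gcongr
      _ = y ^ (2 * M) * 200 := by
          have : y * y ^ (2 * M - 1) = y ^ (2 * M) := by rw [← pow_succ']; congr 1; omega
          rw [← this]; ring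
      _ ≤ y ^ (2 * M) * y ^ 4 := by
          apply Nat.mul_le_mul_left
          calc 200 ≤ y := by omega
            _ = y ^ 1 := (pow_one y).symm
            _ ≤ y ^ 4 := p1 _ _ (by norm_num)
      _ = y ^ (2 * M + 4) := by rw [← pow_add]
      _ ≤ I := hI1

end Pool.Agent.H413R3.OddT
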