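import Pool.Agent.H307R2.OP.AlgMain
import Pool.Agent.H413R3.Part.Pt

set_option autoImplicit false

/-!
# Odd values of the number of `t`-multipartitions, `t ≡ 1 (mod 24)`: the algebraic part
-/

namespace Pool.Agent.H413R3.OddT

open PowerSeries Pool.Agent.H397R2.PP
open Pool.Agent.H307R2.OP Pool.Agent.H307R2.OP.OC
open Pool.Agent.H413R3.Part
open Pool.Agent.H397R2.PP.TH

/-- odd values of `p_t` from an odd coefficient -/
theorem existsOddT (t e m N : ℕ) (hm : 3 * m + t = 2 ^ e) (h : coeff N (Db ^ m) = 1) :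
    ∃ n u : ℕ, Odd (mp t n) ∧ 24 * n + 2 ^ e * u ^ 2 = 3 * N + t := by
  have h1 : Db ^ m = X ^ m * PowerSeries.expand 8 (by norm_num)
      (pentagonalSeries (ZMod 2) ^ (3 * m)) := by
    rw [← pow_eq_expand' 8 3 (by norm_num) (by norm_num), Db, mul_pow, ← pow_mul, ← pow_mul]
    congr 2
    ring
  have hN : ∃ n0 : ℕ, N = 8 * n0 + m := by
    rw [h1, coeff_X_pow_mul'] at h
    split_ifs at h with hmN
    · rw [coeff_expand] at h
      split_ifs at h with hd
      · obtain ⟨c, hc⟩ := hd
        exact ⟨c, by omega⟩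
      · exact absurd h (by decide)
    · exact absurd h (by decide)
  obtain ⟨n0, rfl⟩ := hN
  rw [← identity t m e n0 hm] at h
  unfold psumG at h
  have hne : (∑ j ∈ Finset.Icc (-(n0 : ℤ)) n0,
      if 2 ^ e * pentagonal j ≤ n0 then
        (mp t (n0 - 2 ^ e * pentagonal j) : ZMod 2) else 0) ≠ 0 := by
    rw [h]
    decide
  obtain ⟨j, -, hj⟩ := Finset.exists_ne_zero_of_sum_ne_zero hne
  split_ifs at hj with hle
  · refine ⟨n0 - 2 ^ e * pentagonal j, (6 * j - 1).natAbs, ?_, ?_⟩
    · rw [← Nat.not_even_iff_odd]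
      intro he
      exact hj ((ZMod.natCast_eq_zero_iff_even).2 he)
    · have h4 := pent_sq j
      have h5 : ((6 * j - 1).natAbs ^ 2 : ℕ) = 24 * pentagonal j + 1 := by
        have : (((6 * j - 1).natAbs ^ 2 : ℕ) : ℤ) = ((24 * pentagonal j + 1 : ℕ) : ℤ) := by
          push_cast
          rw [sq_abs, ← h4]
        exact_mod_cast this
      rw [h5]
      obtain ⟨d, hd⟩ := Nat.exists_eq_add_of_le hle
      have h6 : n0 - 2 ^ e * pentagonal j = d := by omega
      rw [h6]
      generalize hq : (2 : ℕ) ^ e = q at *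
      nlinarith
  · exact absurd rfl hj

theorem sp_two_mul_add (n d : ℕ) (hd : d < 2) : sp (2 * n + d) = 4 * sp n + d := by
  rcases Nat.eq_zero_or_pos (2 * n + d) with h | h
  · have h1 : n = 0 := by omega
    have h2 : d = 0 := by omega
    subst h1; subst h2
    rw [mul_zero, zero_add, sp_zero]
  · rw [sp, dif_neg (by omega)]
    have h1 : (2 * n + d) / 2 = n := by omega
    have h2 : (2 * n + d) % 2 = d := by omega
    rw [h1, h2]

theorem sp_high (k : ℕ) : ∀ u v : ℕ, v < 2 ^ k → sp (2 ^ k * u + v) = 4 ^ k * sp u + sp v := by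
  induction k with
  | zero =>
    intro u v hv
    have : v = 0 := by simpa using hv
    subst this
    simp [sp_zero]
  | succ k ih =>
    intro u v hv
    have h1 : 2 ^ (k + 1) * u + v = 2 * (2 ^ k * u + v / 2) + v % 2 := by
      rw [pow_succ]
      have := Nat.div_add_mod v 2
      have e : 2 ^ k * 2 * u = 2 * (2 ^ k * u) := by ring
      omega
    have h2 : sp v = 4 * sp (v / 2) + v % 2 := by
      conv_lhs => rw [← Nat.div_add_mod v 2]
      exact sp_two_mul_add _ _ (Nat.mod_lt _ (by norm_num))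
    rw [h1, sp_two_mul_add _ _ (Nat.mod_lt _ (by norm_num)), ih u (v / 2) (by
      rw [pow_succ] at hv; omega), h2, pow_succ]
    ring

/-- de-interleaving of the binary digits -/
theorem digits (j : ℕ) : ∃ e o : ℕ, j = sp e + 2 * sp o ∧ (∀ k, j < 4 ^ k → e < 2 ^ k) ∧
    (∀ i, Nat.testBit j (2 * i + 1) = Nat.testBit o i) := by
  induction j using Nat.strong_induction_on with
  | _ j ih =>
    rcases Nat.eq_zero_or_pos j with h0 | hpos
    · subst h0
      refine ⟨0, 0, by simp [sp_zero], fun k _ => by positivity, fun i => by simp⟩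
    · obtain ⟨e, o, h1, h2, h3⟩ := ih (j / 4) (by omega)
      refine ⟨2 * e + j % 2, 2 * o + (j / 2) % 2, ?_, ?_, ?_⟩
      · rw [sp_two_mul_add _ _ (Nat.mod_lt _ (by norm_num)),
          sp_two_mul_add _ _ (Nat.mod_lt _ (by norm_num))]
        omega
      · intro k hk
        rcases k with _ | k
        · simp at hk; omega
        · have := h2 k (by rw [pow_succ] at hk; omega)
          rw [pow_succ]
          omega
      · intro i
        rcases i with _ | i
        · simp only [Nat.testBit_eq_decide_div_mod_eq]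
          norm_num
        · have h4 := h3 i
          have e1 : Nat.testBit j (2 * (i + 1) + 1) = Nat.testBit (j / 4) (2 * i + 1) := by
            have h5 : j / 4 = j / 2 / 2 := by omega
            rw [h5, show 2 * (i + 1) + 1 = (2 * i + 1) + 1 + 1 by ring, Nat.testBit_succ,
              Nat.testBit_succ]
          have e2 : Nat.testBit (2 * o + (j / 2) % 2) (i + 1) = Nat.testBit o i := by
            rw [Nat.testBit_succ]
            congr 1
            omega
          rw [e1, e2, h4]

theorem cont_code (a : ℕ) : ∀ m : ℕ, cont (sp a + 2 * sp m) = a + m := by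
  induction a using Nat.strong_induction_on with
  | _ a ih =>
    intro m
    induction m using Nat.strong_induction_on with
    | _ m ihm =>
      by_cases h0 : a = 0 ∧ m = 0
      · obtain ⟨h1, h2⟩ := h0
        subst h1; subst h2
        simp [sp_zero, NIL.cont_zero]
      · have hrec : cont (sp (a / 2) + 2 * sp (m / 2)) = a / 2 + m / 2 := by
          rcases Nat.eq_zero_or_pos a with ha | ha
          · subst ha
            have := ihm (m / 2) (by omega)
            simpa using this
          · exact ih (a / 2) (by omega) (m / 2)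
        have ha : sp a = 4 * sp (a / 2) + a % 2 := by
          conv_lhs => rw [← Nat.div_add_mod a 2]
          exact sp_two_mul_add _ _ (Nat.mod_lt _ (by norm_num))
        have hm : sp m = 4 * sp (m / 2) + m % 2 := by
          conv_lhs => rw [← Nat.div_add_mod m 2]
          exact sp_two_mul_add _ _ (Nat.mod_lt _ (by norm_num))
        have e1 : sp a + 2 * sp m = 4 * (sp (a / 2) + 2 * sp (m / 2)) + (a % 2 + 2 * (m % 2)) := by
          rw [ha, hm]; ring
        rw [e1, NIL.cont_digit _ _ (by omega), hrec]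
        have h2 : wdig (a % 2 + 2 * (m % 2)) = a % 2 + m % 2 := by
          rcases Nat.mod_two_eq_zero_or_one a with h | h <;>
          rcases Nat.mod_two_eq_zero_or_one m with h' | h' <;> rw [h, h'] <;> rfl
        rw [h2]
        omega

/-- the coefficients at the products of `h` primes -/
theorem ocT (a m : ℕ) (s : Finset ℕ) (hs : ∀ q ∈ s, q.Prime ∧ (q % 8 = 3 ∨ q % 8 = 5))
    (hcard : s.card = a + m) (h3 : (s.filter (fun q => q % 8 = 3)).card = a) :
    coeff (∏ q ∈ s, q) (Db ^ (2 * sp a + 4 * sp m + 1)) = 1 := by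
  set l := s.toList with hl'
  have hlen : l.length = a + m := by rw [hl', Finset.length_toList, hcard]
  have hprod : ∏ q ∈ s, q = l.prod := by
    rw [hl']
    have := Finset.prod_map_toList s (fun q => q)
    rw [← this, List.map_id']
  have hmem : ∀ q ∈ l, q.Prime ∧ (q % 8 = 3 ∨ q % 8 = 5) := by
    intro q hq'
    exact hs q (Finset.mem_toList.1 hq')
  have hcount : (l.countP fun q => q % 8 = 3) = a := by
    rw [← h3, Finset.card_def, Finset.filter_val, ← Multiset.countP_eq_card_filter,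
      ← Finset.coe_toList s, Multiset.coe_countP]
  set J := 2 * sp a + 4 * sp m + 1 with hJ
  have hstep1 : coeff (∏ q ∈ s, q) (Db ^ J) = coeff 1 ((l.map TO).prod (Db ^ J)) := by
    have := coeff_list l (Finset.nodup_toList s) (fun q hq' => (hmem q hq').1) 1 (by
      intro q hq' hdvd
      have h1 := (hmem q hq').1
      have h2 : q = 1 := Nat.dvd_one.1 hdvd
      rw [h2] at h1
      exact Nat.not_prime_one h1) (Db ^ J)
    rw [this, one_mul, hprod]
  have hfW : Db ^ J ∈ NIL.WW (a + m + 1) := by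
    have h := NIL.WW_mem (c := a + m + 1) (j := sp a + 2 * sp m) (by rw [cont_code]; omega)
    have e : 2 * (sp a + 2 * sp m) + 1 = J := by rw [hJ]; ring
    rw [e] at h
    exact h
  have hstep2 : (l.map TO).prod (Db ^ J) = (l.map fun q => TO (rp q)).prod (Db ^ J) := by
    have h1 := fil_diff fq_main l hmem _ _ hfW
    rw [hlen] at h1
    have h2 : (((a + m + 1 : ℕ) : ℤ) + (-((a + m : ℕ) : ℤ) - 1)).toNat = 0 := by omega
    rw [h2] at h1
    have h3 := WW_zero h1
    rw [LinearMap.add_apply] at h3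
    have h5 := add_self ((l.map fun q => TO (rp q)).prod (Db ^ J))
    calc (l.map TO).prod (Db ^ J) = ((l.map TO).prod (Db ^ J) +
          (l.map fun q => TO (rp q)).prod (Db ^ J)) + (l.map fun q => TO (rp q)).prod (Db ^ J) := by
          rw [add_assoc, h5, add_zero]
      _ = _ := by rw [h3, zero_add]
  rw [hstep1, hstep2, prod_rp heckeFacts, hcount, hlen, Nat.add_sub_cancel_left,
    Module.End.mul_apply]
  have h1 := pair_main a m m le_rfl
  rw [if_pos rfl, Nat.add_sub_cancel] at h1
  have h5 : (TO 5 ^ m) (Db ^ J) = ((TO 5 ^ m) (Db ^ J) + Db ^ (2 * sp a + 1)) +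
      Db ^ (2 * sp a + 1) := by
    rw [add_assoc, add_self, add_zero]
  rw [h5, map_add, (p3 t3h) a]
  have hF3 : Fil (-1) (TO 3) := (fq_main.q3 3 (by norm_num) (by norm_num)).1
  have h6 := Fil_pow hF3 a _ _ h1
  have h7 : ((a : ℤ) + (a : ℤ) * (-1)).toNat = 0 := by
    have : (a : ℤ) + (a : ℤ) * (-1) = 0 := by ring
    rw [this]; rfl
  rw [h7] at h6
  rw [WW_zero h6, zero_add]
  exact coeff_one_Db'

/-- the exponents `(4 ^ r - t) / 3` -/
theorem exponents (t : ℕ) (ht : t % 24 = 1) : ∃ k a m0 : ℕ, 1 ≤ k ∧ m0 < 2 ^ (k - 1) ∧ a % 2 = 0 ∧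
    ∀ r, k ≤ r → 3 * (2 * sp a + 4 * sp (2 ^ (r - 1) - 2 ^ (k - 1) + m0) + 1) + t = 4 ^ r := by
  have key : ∀ k, t < 4 ^ k → ∃ a m0 : ℕ, 1 ≤ k ∧ m0 < 2 ^ (k - 1) ∧ a % 2 = 0 ∧
      (∀ i, Nat.testBit ((4 ^ k - t) / 3) (2 * i + 1) = Nat.testBit a i) ∧
      ∀ r, k ≤ r → 3 * (2 * sp a + 4 * sp (2 ^ (r - 1) - 2 ^ (k - 1) + m0) + 1) + t = 4 ^ r := by
    intro k hk
    have hk1 : 1 ≤ k := by
      rcases Nat.eq_zero_or_pos k with h | h
      · subst h
        simp at hk
        omega
      · exact h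
    have h43 : (4 : ℕ) ^ k % 3 = 1 := by
      rw [Nat.pow_mod]; norm_num
    have h44 : 4 ≤ (4 : ℕ) ^ k := by
      calc 4 = 4 ^ 1 := by norm_num
        _ ≤ 4 ^ k := Nat.pow_le_pow_right (by norm_num) hk1
    have h4d : (4 : ℕ) ^ k % 4 = 0 := by
      obtain ⟨k', rfl⟩ : ∃ k', k = k' + 1 := ⟨k - 1, by omega⟩
      rw [pow_succ]; omega
    set j := (4 ^ k - t) / 3 with hj
    have hj3 : 3 * j + t = 4 ^ k := by omega
    obtain ⟨e, o, h1, h2, h3⟩ := digits j
    have he2 : sp e = 4 * sp (e / 2) + e % 2 := by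
      conv_lhs => rw [← Nat.div_add_mod e 2]
      exact sp_two_mul_add _ _ (Nat.mod_lt _ (by norm_num))
    have ho2 : sp o = 4 * sp (o / 2) + o % 2 := by
      conv_lhs => rw [← Nat.div_add_mod o 2]
      exact sp_two_mul_add _ _ (Nat.mod_lt _ (by norm_num))
    have he1 : e % 2 = 1 := by omega
    have ho1 : o % 2 = 0 := by omega
    have helt : e < 2 ^ k := h2 k (by omega)
    have hp : 2 ^ k = 2 * 2 ^ (k - 1) := by
      rw [← pow_succ']
      congr 1
      omega
    refine ⟨o, e / 2, hk1, by omega, ho1, h3, fun r hr => ?_⟩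
    have hle : 2 ^ (k - 1) ≤ 2 ^ (r - 1) := Nat.pow_le_pow_right (by norm_num) (by omega)
    have hsplit : 2 ^ (r - 1) - 2 ^ (k - 1) + e / 2 = 2 ^ (k - 1) * (2 ^ (r - k) - 1) + e / 2 := by
      have : 2 ^ (r - 1) = 2 ^ (k - 1) * 2 ^ (r - k) := by
        rw [← pow_add]
        congr 1
        omega
      rw [this, Nat.mul_sub, mul_one]
    have h5 := sp_pow (r - k)
    rw [hsplit, sp_high (k - 1) _ _ (by omega)]
    have h6 : 4 ^ r = 4 * (4 ^ (k - 1) * 4 ^ (r - k)) := by
      rw [← pow_add, ← pow_succ']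
      congr 1
      omega
    have h7 : 4 ^ k = 4 * 4 ^ (k - 1) := by
      rw [← pow_succ']
      congr 1
      omega
    rw [h6, ← h5]
    rw [h7] at hj3
    generalize 4 ^ (k - 1) = P at *
    generalize sp (2 ^ (r - k) - 1) = X' at *
    have e8 : 4 * (P * (3 * X' + 1)) = 12 * (P * X') + 4 * P := by ring
    rw [e8]
    omega
  obtain ⟨k, hk⟩ : ∃ k, t < 4 ^ k := ⟨t, Nat.lt_pow_self (by norm_num)⟩
  obtain ⟨a, m0, h1, h2, h3, h4, h5⟩ := key k hk
  exact ⟨k, a, m0, h1, h2, h3, h5⟩

end Pool.Agent.H413R3.OddT
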