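import Pool.Agent.H413R3.OddT.Alg

set_option autoImplicit false

/-!
# Odd values of the number of `t`-multipartitions: `T_3 ^ 2 T_5 ^ (m - 2)` of `D ^ (4 sp m + 1)`
-/

namespace Pool.Agent.H413R3.OddT

open PowerSeries Pool.Agent.H397R2.PP
open Pool.Agent.H307R2.OP Pool.Agent.H307R2.OP.OC

theorem Db_eq : ∃ φ : S, Db = X * φ ∧ constantCoeff φ = 1 := by
  refine ⟨pentagonalSeries (ZMod 2) ^ 24, rfl, ?_⟩
  rw [map_pow]
  have : constantCoeff (pentagonalSeries (ZMod 2)) = 1 := by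
    have h := coeff_pentagonalSeries_pentagonal (R := ZMod 2) 0
    have h0 : pentagonal 0 = 0 := by decide
    rw [h0, coeff_zero_eq_constantCoeff_apply] at h
    rw [h]
    simp
  rw [this, one_pow]

theorem coeff_lt (i j : ℕ) (h : j < i) : coeff j (Db ^ i) = 0 := by
  obtain ⟨φ, h1, -⟩ := Db_eq
  rw [h1, mul_pow, coeff_X_pow_mul', if_neg (by omega)]

theorem coeff_self (i : ℕ) : coeff i (Db ^ i) = 1 := by
  obtain ⟨φ, h1, h2⟩ := Db_eq
  rw [h1, mul_pow, coeff_X_pow_mul', if_pos le_rfl, Nat.sub_self,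
    coeff_zero_eq_constantCoeff_apply, map_pow, h2, one_pow]

theorem sum_zero (C : Finset ℕ) (h : ∑ j ∈ C, Db ^ j = 0) : C = ∅ := by
  by_contra hne
  have hne' : C.Nonempty := Finset.nonempty_iff_ne_empty.2 hne
  set i := C.min' hne' with hi
  have hiC : i ∈ C := Finset.min'_mem _ _
  have h1 := congrArg (coeff i) h
  rw [map_sum, map_zero, Finset.sum_eq_single i] at h1
  · rw [coeff_self] at h1
    exact one_ne_zero h1
  · intro j hj hji
    apply coeff_lt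
    exact lt_of_le_of_ne (Finset.min'_le _ _ hj) (Ne.symm hji)
  · intro h2
    exact absurd hiC h2

theorem sum_symmDiff (A B : Finset ℕ) :
    ∑ j ∈ symmDiff A B, Db ^ j = ∑ j ∈ A, Db ^ j + ∑ j ∈ B, Db ^ j := by
  have h1 := Finset.sum_sdiff (s₁ := A ∩ B) (s₂ := A) (f := fun j => Db ^ j)
    Finset.inter_subset_left
  have h2 := Finset.sum_sdiff (s₁ := A ∩ B) (s₂ := B) (f := fun j => Db ^ j)
    Finset.inter_subset_right
  have h3 : symmDiff A B = (A \ (A ∩ B)) ∪ (B \ (A ∩ B)) := by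
    ext x
    simp only [Finset.mem_symmDiff, Finset.mem_union, Finset.mem_sdiff, Finset.mem_inter]
    tauto
  have h4 : Disjoint (A \ (A ∩ B)) (B \ (A ∩ B)) := by
    rw [Finset.disjoint_left]
    intro x hx hx'
    simp only [Finset.mem_sdiff, Finset.mem_inter] at hx hx'
    tauto
  rw [h3, Finset.sum_union h4, ← h1, ← h2]
  have h5 := add_self (∑ j ∈ A ∩ B, Db ^ j)
  linear_combination (-1 : S) * h5

theorem sum_inj (A B : Finset ℕ) (h : ∑ j ∈ A, Db ^ j = ∑ j ∈ B, Db ^ j) : A = B := by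
  have h1 := sum_symmDiff A B
  rw [h, add_self] at h1
  have h2 := sum_zero _ h1
  exact symmDiff_eq_bot.1 (by rw [Finset.bot_eq_empty]; exact h2)

theorem span_finset (P : ℕ → Prop) (f : S)
    (hf : f ∈ Submodule.span (ZMod 2) {φ : S | ∃ j : ℕ, P j ∧ φ = Db ^ j}) :
    ∃ A : Finset ℕ, (∀ j ∈ A, P j) ∧ f = ∑ j ∈ A, Db ^ j := by
  classical
  induction hf using Submodule.span_induction with
  | mem x hx =>
    obtain ⟨j, hj, rfl⟩ := hx
    exact ⟨{j}, by simpa using hj, by simp⟩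
  | zero => exact ⟨∅, by simp, by simp⟩
  | add x y _ _ hx hy =>
    obtain ⟨A, hA, rfl⟩ := hx
    obtain ⟨B, hB, rfl⟩ := hy
    refine ⟨symmDiff A B, ?_, (sum_symmDiff A B).symm⟩
    intro j hj
    rw [Finset.mem_symmDiff] at hj
    rcases hj with h | h
    · exact hA j h.1
    · exact hB j h.1
  | smul c x _ hx =>
    obtain ⟨A, hA, rfl⟩ := hx
    have hc : c = 0 ∨ c = 1 := by
      revert c
      decide
    rcases hc with rfl | rfl
    · exact ⟨∅, by simp, by simp⟩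
    · exact ⟨A, hA, by simp⟩

theorem WW_finset (c : ℕ) (f : S) (hf : f ∈ NIL.WW c) :
    ∃ A : Finset ℕ, (∀ j ∈ A, ∃ n, cont n < c ∧ j = 2 * n + 1) ∧ f = ∑ j ∈ A, Db ^ j := by
  apply span_finset
  refine Submodule.span_mono ?_ hf
  rintro φ ⟨j, hj, rfl⟩
  exact ⟨2 * j + 1, ⟨j, hj, rfl⟩, rfl⟩

theorem T3_first (k : ℕ) : ∃ E : ℕ, 3 * E = 4 ^ (k + 1) + 5 ∧
    Tp 3 (Db ^ (5 + 4 ^ (k + 1))) = Db ^ E := by
  induction k with
  | zero => exact ⟨3, by norm_num, T3_9 t3h⟩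
  | succ k ih =>
    obtain ⟨E, hE, h1⟩ := ih
    refine ⟨4 ^ (k + 1) + E, by rw [pow_succ 4 (k + 1)]; omega, ?_⟩
    have h2 := t3h.recu (2 * (k + 1)) 5
    have h3 : (2 : ℕ) ^ (2 * (k + 1)) = 4 ^ (k + 1) := by rw [pow_mul]; norm_num
    have h4 : 4 * (2 : ℕ) ^ (2 * (k + 1)) = 4 ^ (k + 1 + 1) := by
      rw [h3, pow_succ 4 (k + 1)]; ring
    rw [h4, h3, h1, t3h.ini.2.2.1, mul_zero, add_zero, ← pow_add] at h2
    exact h2

theorem T3_second (k : ℕ) : ∀ E Mk : ℕ, 3 * E = 4 ^ (k + 1) + 5 → 3 * Mk + 1 = 4 ^ (k + 1) →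
    ∃ B : Finset ℕ, (∀ j ∈ B, j % 2 = 1 ∧ j < Mk) ∧
    Tp 3 (Db ^ E) = Db ^ Mk + ∑ j ∈ B, Db ^ j := by
  induction k with
  | zero =>
    intro E Mk hE hM
    have e1 : E = 3 := by norm_num at hE; omega
    have e2 : Mk = 1 := by norm_num at hM; omega
    subst e1; subst e2
    exact ⟨∅, by simp, by rw [t3h.ini.2.1]; simp⟩
  | succ k ih =>
    intro E Mk hE hM
    rcases Nat.eq_zero_or_pos k with hk | hk
    · subst hk
      have e1 : E = 7 := by norm_num at hE; omega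
      have e2 : Mk = 5 := by norm_num at hM; omega
      subst e1; subst e2
      exact ⟨∅, by simp, by rw [t3h.ini.2.2.2]; simp⟩
    · have hp : 4 ^ (k + 1 + 1) = 4 * 4 ^ (k + 1) := by rw [pow_succ]; ring
      have hp2 : 4 ^ (k + 1) = 4 * 4 ^ k := by rw [pow_succ]; ring
      have hp3 : 4 ≤ 4 ^ k := by
        calc 4 = 4 ^ 1 := by norm_num
          _ ≤ 4 ^ k := Nat.pow_le_pow_right (by norm_num) hk
      have hp4 : 4 ^ k % 4 = 0 := by
        obtain ⟨k', rfl⟩ : ∃ k', k = k' + 1 := ⟨k - 1, by omega⟩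
        rw [pow_succ]; omega
      obtain ⟨E', hE'⟩ : ∃ E', E' + 4 ^ (k + 1) = E := ⟨E - 4 ^ (k + 1), by omega⟩
      obtain ⟨M', hM'⟩ : ∃ M', M' + 4 ^ (k + 1) = Mk := ⟨Mk - 4 ^ (k + 1), by omega⟩
      obtain ⟨B', hB', h1⟩ := ih E' M' (by omega) (by omega)
      have h2 := t3h.recu (2 * k) E'
      have h3 : (2 : ℕ) ^ (2 * k) = 4 ^ k := by rw [pow_mul]; norm_num
      have h4 : 4 * (2 : ℕ) ^ (2 * k) = 4 ^ (k + 1) := by
        rw [h3, pow_succ 4 k]; ring
      rw [h4, h3, hE', h1] at h2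
      have h5 := heckeFacts.mem 3 (E' + 4 ^ k) (by norm_num) (by norm_num) (by omega)
      obtain ⟨C, hC, h6⟩ := span_finset (fun j => j ≤ E' + 4 ^ k ∧ j % 8 = (3 * (E' + 4 ^ k)) % 8)
        _ (by
          refine Submodule.span_mono ?_ h5
          rintro φ ⟨j, hj1, hj2, rfl⟩
          exact ⟨j, ⟨hj1, hj2⟩, rfl⟩)
      rw [h6] at h2
      classical
      refine ⟨symmDiff (C.image (fun j => 4 ^ k + j)) (B'.image (fun j => 4 ^ (k + 1) + j)),
        ?_, ?_⟩
      · intro j hj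
        rw [Finset.mem_symmDiff] at hj
        rcases hj with ⟨hj, -⟩ | ⟨hj, -⟩
        · obtain ⟨i, hi, rfl⟩ := Finset.mem_image.1 hj
          obtain ⟨h7, h8⟩ := hC i hi
          constructor <;> omega
        · obtain ⟨i, hi, rfl⟩ := Finset.mem_image.1 hj
          obtain ⟨h7, h8⟩ := hB' i hi
          constructor <;> omega
      · rw [h2, sum_symmDiff, Finset.sum_image (fun a _ b _ h => by simpa using h),
          Finset.sum_image (fun a _ b _ h => by simpa using h), Finset.mul_sum, mul_add,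
          Finset.mul_sum, ← pow_add, show 4 ^ (k + 1) + M' = Mk by omega]
        simp_rw [← pow_add]
        ring

theorem exists_m3 (r : ℕ) : ∃ m : ℕ, 3 * m + 1 = 4 ^ r := by
  induction r with
  | zero => exact ⟨0, by norm_num⟩
  | succ r ih =>
    obtain ⟨m, hm⟩ := ih
    exact ⟨4 * m + 1, by rw [pow_succ, ← hm]; ring⟩

theorem base_case (k : ℕ) (hk : 1 ≤ k) :
    (TO 5 ^ (2 ^ k - 1)) ((TO 3 ^ 2) (Db ^ (4 * sp (2 ^ k + 1) + 1))) = Db := by
  have h2k : 2 ≤ 2 ^ k := by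
    calc 2 = 2 ^ 1 := by norm_num
      _ ≤ 2 ^ k := Nat.pow_le_pow_right (by norm_num) hk
  have hsp1 : sp 1 = 1 := by
    have := sp_two_mul_add 0 1 (by norm_num)
    rw [mul_zero, zero_add, sp_zero] at this
    exact this
  have hsp : sp (2 ^ k + 1) = 4 ^ k + 1 := by
    have := sp_high k 1 1 (by omega)
    rw [mul_one, hsp1, mul_one] at this
    exact this
  have hexp : 4 * sp (2 ^ k + 1) + 1 = 5 + 4 ^ (k + 1) := by
    rw [hsp, pow_succ]; ring
  have hmem : Db ^ (4 * sp (2 ^ k + 1) + 1) ∈ NIL.WW (2 ^ k + 2) := by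
    have h := NIL.WW_mem (c := 2 ^ k + 2) (j := sp 0 + 2 * sp (2 ^ k + 1))
      (by rw [cont_code]; omega)
    have e : 2 * (sp 0 + 2 * sp (2 ^ k + 1)) + 1 = 4 * sp (2 ^ k + 1) + 1 := by
      rw [sp_zero]; ring
    rw [e] at h
    exact h
  have hF3 : Fil (-1) (TO 3) := (fq_main.q3 3 (by norm_num) (by norm_num)).1
  have hmem2 : (TO 3 ^ 2) (Db ^ (4 * sp (2 ^ k + 1) + 1)) ∈ NIL.WW (2 ^ k) := by
    have h := Fil_pow hF3 2 _ _ hmem
    have e : (((2 ^ k + 2 : ℕ) : ℤ) + ((2 : ℕ) : ℤ) * (-1)).toNat = 2 ^ k := by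
      have : ((2 ^ k + 2 : ℕ) : ℤ) + ((2 : ℕ) : ℤ) * (-1) = ((2 ^ k : ℕ) : ℤ) := by
        push_cast; ring
      rw [this, Int.toNat_natCast]
    rw [e] at h
    exact h
  obtain ⟨E, hE, h1⟩ := T3_first k
  obtain ⟨Mk, hMk⟩ : ∃ Mk, 3 * Mk + 1 = 4 ^ (k + 1) := exists_m3 (k + 1)
  obtain ⟨B, hB, h2⟩ := T3_second k E Mk hE hMk
  have h3 : (TO 3 ^ 2) (Db ^ (4 * sp (2 ^ k + 1) + 1)) = Db ^ Mk + ∑ j ∈ B, Db ^ j := by
    rw [pow_two, Module.End.mul_apply, hexp]
    show Tp 3 (Tp 3 (Db ^ (5 + 4 ^ (k + 1)))) = _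
    rw [h1, h2]
  have hMB : Mk ∉ B := fun h => absurd (hB Mk h).2 (lt_irrefl _)
  have h4 : (TO 3 ^ 2) (Db ^ (4 * sp (2 ^ k + 1) + 1)) = ∑ j ∈ insert Mk B, Db ^ j := by
    rw [h3, Finset.sum_insert hMB]
  obtain ⟨A, hA, h5⟩ := WW_finset _ _ hmem2
  have hAB : A = insert Mk B := sum_inj _ _ (by rw [← h5, h4])
  have hMkeq : Mk = 4 * sp (2 ^ k - 1) + 1 := by
    have := sp_pow k
    rw [pow_succ] at hMk
    omega
  rw [h3, map_add, map_sum]
  have hzero : ∀ j ∈ B, (TO 5 ^ (2 ^ k - 1)) (Db ^ j) = 0 := by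
    intro j hj
    obtain ⟨n, hn, rfl⟩ := hA j (by rw [hAB]; exact Finset.mem_insert_of_mem hj)
    have hlt := (hB _ hj).2
    obtain ⟨a, m, hn1, hn2⟩ := JI.decomp n
    rw [hn2] at hn
    have e1 : 2 * n + 1 = 2 * sp a + 4 * sp m + 1 := by omega
    have hm : m ≤ 2 ^ k - 1 := by omega
    have hne : m ≠ 2 ^ k - 1 := by
      intro h
      have ha : a = 0 := by omega
      rw [e1, ha, h, sp_zero, hMkeq] at hlt
      omega
    have h6 := pair_main a m (2 ^ k - 1) hm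
    rw [if_neg (fun h => hne h.symm), add_zero, show a + m - (2 ^ k - 1) = 0 by omega] at h6
    rw [e1]
    exact WW_zero h6
  rw [Finset.sum_eq_zero hzero, add_zero]
  have h7 := pair_main 0 (2 ^ k - 1) (2 ^ k - 1) le_rfl
  rw [if_pos rfl, sp_zero, mul_zero, zero_add, zero_add, Nat.sub_self, pow_one, ← hMkeq] at h7
  have h8 := WW_zero h7
  have h9 := add_self Db
  calc (TO 5 ^ (2 ^ k - 1)) (Db ^ Mk) = ((TO 5 ^ (2 ^ k - 1)) (Db ^ Mk) + Db) + Db := by
        rw [add_assoc, h9, add_zero]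
    _ = Db := by rw [h8, zero_add]

/-- `T_3 ^ 2 T_5 ^ (m - 2)` for odd `m` -/
theorem two_three (m : ℕ) : m % 2 = 1 → 3 ≤ m →
    (TO 5 ^ (m - 2)) ((TO 3 ^ 2) (Db ^ (4 * sp m + 1))) = Db := by
  induction m using Nat.strong_induction_on with
  | _ m ih =>
    intro hodd hm3
    set k := Nat.log 2 m with hk
    have h1 : 2 ^ k ≤ m := Nat.pow_log_le_self 2 (by omega)
    have h2 : m < 2 ^ (k + 1) := Nat.lt_pow_succ_log_self (by norm_num) m
    have hk1 : 1 ≤ k := Nat.log_pos (by norm_num) (by omega)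
    rw [pow_succ] at h2
    obtain ⟨m1, hm1⟩ : ∃ m1, m = 2 ^ k + m1 := ⟨m - 2 ^ k, by omega⟩
    have hm1lt : m1 < 2 ^ k := by omega
    have h2k : 2 ^ k % 2 = 0 := by
      obtain ⟨k', hk'⟩ : ∃ k', k = k' + 1 := ⟨k - 1, by omega⟩
      rw [hk', pow_succ]; omega
    have h2k2 : 2 ≤ 2 ^ k := by
      calc 2 = 2 ^ 1 := by norm_num
        _ ≤ 2 ^ k := Nat.pow_le_pow_right (by norm_num) hk1
    have hm1odd : m1 % 2 = 1 := by omega
    rcases Nat.lt_or_ge m1 3 with h3 | h3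
    · have h4 : m1 = 1 := by omega
      rw [hm1, h4]
      have h5 := base_case k hk1
      have e : 2 ^ k + 1 - 2 = 2 ^ k - 1 := by omega
      rw [e]
      exact h5
    · have ih' := ih m1 (by omega) hm1odd h3
      have hl := l5_main k m1 hm1lt
      have hcomm : ∀ i : ℕ, ∀ f : S, (TO 5 ^ i) ((TO 3 ^ 2) f) = (TO 3 ^ 2) ((TO 5 ^ i) f) := by
        intro i f
        have h := ((comm35 heckeFacts).pow_pow 2 i).eq
        rw [← Module.End.mul_apply, ← Module.End.mul_apply, h]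
      rw [hcomm] at ih' ⊢
      have e1 : m - 2 = (m1 - 2) + 2 ^ k := by omega
      rw [e1, pow_add, Module.End.mul_apply, hm1]
      set w := (TO 5 ^ 2 ^ k) (Db ^ (4 * sp (2 ^ k + m1) + 1)) + Db ^ (4 * sp m1 + 1) with hw
      have e3 : (TO 5 ^ 2 ^ k) (Db ^ (4 * sp (2 ^ k + m1) + 1)) =
          w + Db ^ (4 * sp m1 + 1) := by
        rw [hw, add_assoc, add_self, add_zero]
      rw [e3, map_add, map_add, ih']
      have hF3 : Fil (-1) (TO 3) := (fq_main.q3 3 (by norm_num) (by norm_num)).1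
      have hF5 : Fil (-1) (TO 5) := (fq_main.q5 5 (by norm_num) (by norm_num)).1
      have h5 := Fil_mul (Fil_pow hF3 2) (Fil_pow hF5 (m1 - 2)) _ _ hl
      have h6 : ((m1 : ℤ) + (((2 : ℕ) : ℤ) * (-1) + ((m1 - 2 : ℕ) : ℤ) * (-1))).toNat = 0 := by
        omega
      rw [h6] at h5
      have h7 := WW_zero h5
      rw [Module.End.mul_apply] at h7
      rw [h7, zero_add]

/-- the coefficients at the products of primes, two of them `≡ 3 (mod 8)` -/
theorem ocT2 (m : ℕ) (hodd : m % 2 = 1) (hm3 : 3 ≤ m) (s : Finset ℕ)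
    (hs : ∀ q ∈ s, q.Prime ∧ (q % 8 = 3 ∨ q % 8 = 5))
    (hcard : s.card = m) (h3 : (s.filter (fun q => q % 8 = 3)).card = 2) :
    coeff (∏ q ∈ s, q) (Db ^ (4 * sp m + 1)) = 1 := by
  set l := s.toList with hl'
  have hlen : l.length = m := by rw [hl', Finset.length_toList, hcard]
  have hprod : ∏ q ∈ s, q = l.prod := by
    rw [hl']
    have := Finset.prod_map_toList s (fun q => q)
    rw [← this, List.map_id']
  have hmem : ∀ q ∈ l, q.Prime ∧ (q % 8 = 3 ∨ q % 8 = 5) := by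
    intro q hq'
    exact hs q (Finset.mem_toList.1 hq')
  have hcount : (l.countP fun q => q % 8 = 3) = 2 := by
    rw [← h3, Finset.card_def, Finset.filter_val, ← Multiset.countP_eq_card_filter,
      ← Finset.coe_toList s, Multiset.coe_countP]
  set J := 4 * sp m + 1 with hJ
  have hstep1 : coeff (∏ q ∈ s, q) (Db ^ J) = coeff 1 ((l.map TO).prod (Db ^ J)) := by
    have := coeff_list l (Finset.nodup_toList s) (fun q hq' => (hmem q hq').1) 1 (by
      intro q hq' hdvd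
      have h1 := (hmem q hq').1
      have h2 : q = 1 := Nat.dvd_one.1 hdvd
      rw [h2] at h1
      exact Nat.not_prime_one h1) (Db ^ J)
    rw [this, one_mul, hprod]
  have hfW : Db ^ J ∈ NIL.WW (m + 1) := by
    have h := NIL.WW_mem (c := m + 1) (j := sp 0 + 2 * sp m) (by rw [cont_code]; omega)
    have e : 2 * (sp 0 + 2 * sp m) + 1 = J := by rw [hJ, sp_zero]; ring
    rw [e] at h
    exact h
  have hstep2 : (l.map TO).prod (Db ^ J) = (l.map fun q => TO (rp q)).prod (Db ^ J) := by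
    have h1 := fil_diff fq_main l hmem _ _ hfW
    rw [hlen] at h1
    have h2 : (((m + 1 : ℕ) : ℤ) + (-((m : ℕ) : ℤ) - 1)).toNat = 0 := by omega
    rw [h2] at h1
    have h3 := WW_zero h1
    rw [LinearMap.add_apply] at h3
    have h5 := add_self ((l.map fun q => TO (rp q)).prod (Db ^ J))
    calc (l.map TO).prod (Db ^ J) = ((l.map TO).prod (Db ^ J) +
          (l.map fun q => TO (rp q)).prod (Db ^ J)) + (l.map fun q => TO (rp q)).prod (Db ^ J) := by
          rw [add_assoc, h5, add_zero]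
      _ = _ := by rw [h3, zero_add]
  rw [hstep1, hstep2, prod_rp heckeFacts, hcount, hlen]
  have hcomm := ((comm35 heckeFacts).pow_pow 2 (m - 2)).eq
  rw [hcomm, Module.End.mul_apply, two_three m hodd hm3]
  exact coeff_one_Db'

end Pool.Agent.H413R3.OddT
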